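import Mathlib

/-! A cubic transformation in characteristic `p` for `∑ C(2j,j) t^j/(3j+1)`. -/

namespace Pool.Agent.Q33.Cub

open Finset Polynomial

variable {p : ℕ} [Fact p.Prime]

/-- `θ P = 3 X P' + P` -/
noncomputable def th (P : (ZMod p)[X]) : (ZMod p)[X] := 3 * X * derivative P + P

theorem th_add (P Q : (ZMod p)[X]) : th (P + Q) = th P + th Q := by
  unfold th
  rw [derivative_add]
  ring

theorem th_sub (P Q : (ZMod p)[X]) : th (P - Q) = th P - th Q := by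
  unfold th
  rw [derivative_sub]
  ring

theorem th_C_mul (a : ZMod p) (P : (ZMod p)[X]) : th (C a * P) = C a * th P := by
  unfold th
  rw [derivative_C_mul]
  ring

theorem th_sum {ι : Type*} (s : Finset ι) (f : ι → (ZMod p)[X]) :
    th (∑ i ∈ s, f i) = ∑ i ∈ s, th (f i) := by
  unfold th
  rw [derivative_sum, mul_sum, sum_add_distrib]

theorem th_coeff (P : (ZMod p)[X]) (e : ℕ) : (th P).coeff e = (3 * (e : ZMod p) + 1) * P.coeff e := by
  unfold th
  have h3 : (3 : (ZMod p)[X]) * X * derivative P = C 3 * (X * derivative P) := by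
    rw [show (C (3 : ZMod p) : (ZMod p)[X]) = 3 from rfl]
    ring
  rw [h3, coeff_add, coeff_C_mul]
  rcases e with _ | n
  · simp
  · rw [coeff_X_mul, coeff_derivative]
    push_cast
    ring

theorem X_mul_derivative_pow (a : ℕ) : X * derivative (X ^ a : (ZMod p)[X]) = (a : (ZMod p)[X]) * X ^ a := by
  rcases a with _ | n
  · simp
  · rw [derivative_X_pow, Nat.add_sub_cancel, pow_succ]
    push_cast
    simp only [map_add, map_natCast, map_one]
    ring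

theorem th_X_pow (a : ℕ) : th (X ^ a : (ZMod p)[X]) = (3 * (a : (ZMod p)[X]) + 1) * X ^ a := by
  unfold th
  have := X_mul_derivative_pow (p := p) a
  linear_combination 3 * this

theorem th_mono (a b : ℕ) : th (X ^ a * (1 - X) ^ (b + 1) : (ZMod p)[X])
    = X ^ a * (1 - X) ^ b * ((3 * (a : (ZMod p)[X]) + 1) * (1 - X) - 3 * ((b : (ZMod p)[X]) + 1) * X) := by
  unfold th
  have h1 := X_mul_derivative_pow (p := p) a
  rw [derivative_mul, derivative_pow_succ]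
  have h2 : derivative (1 - X : (ZMod p)[X]) = -1 := by
    simp
  rw [h2, pow_succ (1 - X) b]
  simp only [map_add, map_natCast, map_one]
  linear_combination 3 * (1 - X) ^ b * (1 - X) * h1

variable (p) in
/-- `h = (p-1)/2` -/
def hh : ℕ := (p - 1) / 2

variable (p) in
/-- coefficients -/
noncomputable def ph (j : ℕ) : ZMod p := (((hh p).choose j : ZMod p) * (-4) ^ j) / (3 * (j : ZMod p) + 1)

variable (p) in
/-- `f = ∑ φ_j X^j` -/
noncomputable def f : (ZMod p)[X] := ∑ j ∈ range (hh p + 1), C (ph p j) * X ^ j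

variable (p) in
/-- transformed polynomial -/
noncomputable def g : (ZMod p)[X] :=
  ∑ j ∈ range (hh p + 1), C (ph p j * (3 * 27 ^ j)⁻¹) * (X ^ (p - 1 - 2 * j) * (1 - X) ^ (3 * j + 1))

variable (p) in
/-- `κ_j = (3j+1) φ_j` -/
noncomputable def ka (j : ℕ) : ZMod p := (3 * (j : ZMod p) + 1) * ph p j

theorem th_f : th (f p) = ∑ j ∈ range (hh p + 1), C (ka p j) * X ^ j := by
  unfold f
  rw [th_sum]
  refine sum_congr rfl fun j _ => ?_
  rw [th_C_mul, th_X_pow]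
  unfold ka
  rw [map_mul, map_add, map_mul, map_one, map_natCast]
  rw [show (C (3 : ZMod p) : (ZMod p)[X]) = 3 from rfl]
  ring

theorem two_hh (h2 : p ≠ 2) : 2 * hh p + 1 = p := by
  have hp : p.Prime := Fact.out
  have := hp.eq_two_or_odd
  unfold hh
  omega

theorem cast_a (h2 : p ≠ 2) {j : ℕ} (hj : j ≤ hh p) : ((p - 1 - 2 * j : ℕ) : (ZMod p)[X]) = -1 - 2 * (j : (ZMod p)[X]) := by
  have h1 := two_hh h2
  have h3 : ((p - 1 - 2 * j : ℕ) : (ZMod p)[X]) + 1 + 2 * (j : (ZMod p)[X]) = ((p : ℕ) : (ZMod p)[X]) := by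
    have : p - 1 - 2 * j + 1 + 2 * j = p := by omega
    exact_mod_cast congrArg (fun n : ℕ => (n : (ZMod p)[X])) this
  have h4 : ((p : ℕ) : (ZMod p)[X]) = 0 := CharP.cast_eq_zero _ p
  rw [h4] at h3
  linear_combination h3

theorem th_g (h2 : p ≠ 2) : th (g p) = -C ((3 : ZMod p)⁻¹) * (X + 2)
    * ∑ j ∈ range (hh p + 1), C (ka p j * (27 ^ j)⁻¹) * (X ^ (p - 1 - 2 * j) * (1 - X) ^ (3 * j)) := by
  unfold g
  rw [th_sum, mul_sum]
  refine sum_congr rfl fun j hj => ?_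
  rw [mem_range] at hj
  rw [th_C_mul, th_mono, cast_a h2 (by omega)]
  unfold ka
  rw [mul_inv]
  simp only [map_mul, map_add, map_one, map_natCast]
  rw [show (C (3 : ZMod p) : (ZMod p)[X]) = 3 from rfl]
  push_cast
  ring

theorem power_id (h2 : p ≠ 2) (h3 : (3 : ZMod p) ≠ 0) :
    ∑ j ∈ range (hh p + 1), C ((((hh p).choose j : ZMod p) * (-4) ^ j) * (27 ^ j)⁻¹)
      * (X ^ (p - 1 - 2 * j) * (1 - X) ^ (3 * j))
    = C (((-27) ^ hh p)⁻¹ : ZMod p) * (1 - 4 * X) ^ hh p * (X + 2) ^ (p - 1) := by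
  have h27 : (27 : ZMod p) ≠ 0 := by
    rw [show (27 : ZMod p) = 3 ^ 3 by norm_num]
    exact pow_ne_zero 3 h3
  set c : (ZMod p)[X] := C ((27 : ZMod p)⁻¹) with hc
  have hc1 : 27 * c = 1 := by
    rw [hc, show (27 : (ZMod p)[X]) = C (27 : ZMod p) from rfl, ← map_mul, mul_inv_cancel₀ h27, map_one]
  have key : (-4 * c * (1 - X) ^ 3 + X ^ 2 : (ZMod p)[X]) = -c * ((1 - 4 * X) * (X + 2) ^ 2) := by
    linear_combination (-X ^ 2) * hc1
  have hpw : (-4 * c * (1 - X) ^ 3 + X ^ 2 : (ZMod p)[X]) ^ hh p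
      = (-c * ((1 - 4 * X) * (X + 2) ^ 2)) ^ hh p := by rw [key]
  rw [add_pow, mul_pow (-c), mul_pow (1 - 4 * X), ← pow_mul] at hpw
  have hh2 := two_hh h2
  have e1 : C (((-27) ^ hh p)⁻¹ : ZMod p) = (-c) ^ hh p := by
    rw [hc, ← map_neg, ← map_pow]
    congr 1
    rw [← inv_neg, inv_pow]
  rw [e1, mul_assoc, show p - 1 = 2 * hh p by omega, ← hpw]
  refine sum_congr rfl fun j hj => ?_
  rw [mem_range] at hj
  have e2 : (X : (ZMod p)[X]) ^ (2 * hh p - 2 * j) = (X ^ 2) ^ (hh p - j) := by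
    rw [← pow_mul]
    congr 1
    omega
  have e3 : (C ((((hh p).choose j : ZMod p) * (-4) ^ j) * (27 ^ j)⁻¹) : (ZMod p)[X])
      = ((hh p).choose j : (ZMod p)[X]) * (-4 * c) ^ j := by
    rw [hc, mul_pow, ← map_pow, map_mul, map_mul, map_natCast, map_pow, map_neg, inv_pow]
    rw [show (C (4 : ZMod p) : (ZMod p)[X]) = 4 from rfl]
    ring
  rw [e2, e3, mul_pow (-4 * c) ((1 - X) ^ 3) j, ← pow_mul (1 - X) 3 j]
  ring

theorem sum_binom : ∑ j ∈ range (hh p + 1), C (((hh p).choose j : ZMod p) * (-4) ^ j) * (X : (ZMod p)[X]) ^ j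
    = (1 - 4 * X) ^ hh p := by
  rw [show (1 - 4 * X : (ZMod p)[X]) = -4 * X + 1 by ring, add_pow]
  refine sum_congr rfl fun j _ => ?_
  rw [one_pow, map_mul, map_natCast, map_pow, map_neg, mul_pow]
  rw [show (C (4 : ZMod p) : (ZMod p)[X]) = 4 from rfl]
  ring

theorem th_mul_pow (P : (ZMod p)[X]) : th ((X + 2) ^ p * P) = (X + 2) ^ p * th P := by
  unfold th
  rw [derivative_mul, derivative_pow]
  have : (C (p : ZMod p) : (ZMod p)[X]) = 0 := by
    rw [CharP.cast_eq_zero, map_zero]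
  rw [this]
  ring

theorem natDegree_f : (f p).natDegree ≤ hh p := by
  unfold f
  apply natDegree_sum_le_of_forall_le
  intro j hj
  rw [mem_range] at hj
  exact (natDegree_C_mul_X_pow_le _ _).trans (by omega)

theorem natDegree_f2 : ((X + 2) ^ p * f p).natDegree ≤ p + hh p := by
  refine natDegree_mul_le.trans (add_le_add ?_ natDegree_f)
  refine natDegree_pow_le.trans ?_
  have : (X + 2 : (ZMod p)[X]).natDegree ≤ 1 := by
    rw [show (2 : (ZMod p)[X]) = C 2 from rfl, natDegree_X_add_C]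
  nlinarith

theorem natDegree_g (h2 : p ≠ 2) : (g p).natDegree ≤ p + hh p := by
  have hh2 := two_hh h2
  unfold g
  apply natDegree_sum_le_of_forall_le
  intro j hj
  rw [mem_range] at hj
  refine (natDegree_C_mul_le _ _).trans (natDegree_mul_le.trans ?_)
  have h3 : (X ^ (p - 1 - 2 * j) : (ZMod p)[X]).natDegree ≤ p - 1 - 2 * j := natDegree_X_pow_le _
  have h4 : ((1 - X) ^ (3 * j + 1) : (ZMod p)[X]).natDegree ≤ 3 * j + 1 := by
    refine natDegree_pow_le.trans ?_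
    have : (1 - X : (ZMod p)[X]).natDegree ≤ 1 := by
      refine (natDegree_sub_le _ _).trans ?_
      rw [natDegree_one, natDegree_X]
      simp
    nlinarith
  omega

theorem eval_f (x : ZMod p) : (f p).eval x = ∑ j ∈ range (hh p + 1), ph p j * x ^ j := by
  unfold f
  rw [eval_finsetSum]
  refine sum_congr rfl fun j _ => ?_
  rw [eval_C_mul, eval_pow, eval_X]

theorem eval_g (x : ZMod p) : (g p).eval x
    = ∑ j ∈ range (hh p + 1), ph p j * (3 * 27 ^ j)⁻¹ * (x ^ (p - 1 - 2 * j) * (1 - x) ^ (3 * j + 1)) := by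
  unfold g
  rw [eval_finsetSum]
  refine sum_congr rfl fun j _ => ?_
  rw [eval_C_mul, eval_mul, eval_pow, eval_pow, eval_X, eval_sub, eval_X, eval_one]

theorem g_one : (g p).eval 1 = 0 := by
  rw [eval_g]
  apply sum_eq_zero
  intro j _
  rw [sub_self, pow_succ, mul_zero, mul_zero, mul_zero]

/-- `β = ∑ φ_j 4^(-j)` -/
noncomputable def be (p : ℕ) [Fact p.Prime] : ZMod p := ∑ j ∈ range (hh p + 1), ph p j * (4⁻¹) ^ j

theorem pow_a (h2 : p ≠ 2) {x : ZMod p} (hx : x ≠ 0) {j : ℕ} (hj : j ≤ hh p) :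
    x ^ (p - 1 - 2 * j) = ((x ^ 2)⁻¹) ^ j := by
  have hh2 := two_hh h2
  have h1 : x ^ (p - 1 - 2 * j) * (x ^ 2) ^ j = 1 := by
    rw [← pow_mul, ← pow_add, show p - 1 - 2 * j + 2 * j = p - 1 by omega]
    exact ZMod.pow_card_sub_one_eq_one hx
  rw [inv_pow]
  exact eq_inv_of_mul_eq_one_left h1

theorem two_ne (h2 : p ≠ 2) : (2 : ZMod p) ≠ 0 := by
  intro h
  have h' : ((2 : ℕ) : ZMod p) = 0 := by exact_mod_cast h
  rw [ZMod.natCast_eq_zero_iff] at h'
  have hp : p.Prime := Fact.out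
  exact h2 ((Nat.prime_dvd_prime_iff_eq hp Nat.prime_two).1 h')

theorem g_neg_two (h2 : p ≠ 2) (h3 : (3 : ZMod p) ≠ 0) : (g p).eval (-2) = be p := by
  rw [eval_g]
  unfold be
  refine sum_congr rfl fun j hj => ?_
  rw [mem_range] at hj
  have h2' := two_ne h2
  rw [pow_a h2 (neg_ne_zero.2 h2') (by omega), show (1 - -2 : ZMod p) = 3 by norm_num,
    show ((-2) ^ 2 : ZMod p) = 4 by norm_num, pow_succ, pow_mul, show (3 ^ 3 : ZMod p) = 27 by norm_num]
  have h27 : (27 : ZMod p) ^ j ≠ 0 := by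
    rw [show (27 : ZMod p) = 3 ^ 3 by norm_num]
    exact pow_ne_zero _ (pow_ne_zero 3 h3)
  rw [mul_inv]
  field_simp

theorem f_quarter : (f p).eval (4⁻¹) = be p := by
  rw [eval_f]
  rfl

theorem g_quarter (h2 : p ≠ 2) (h3 : (3 : ZMod p) ≠ 0) : (g p).eval (4⁻¹) = 4⁻¹ * be p := by
  rw [eval_g]
  unfold be
  rw [mul_sum]
  refine sum_congr rfl fun j hj => ?_
  rw [mem_range] at hj
  have h2' := two_ne h2
  have h4 : (4 : ZMod p) ≠ 0 := by
    rw [show (4 : ZMod p) = 2 ^ 2 by norm_num]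
    exact pow_ne_zero 2 h2'
  have h27 : (27 : ZMod p) ^ j ≠ 0 := by
    rw [show (27 : ZMod p) = 3 ^ 3 by norm_num]
    exact pow_ne_zero _ (pow_ne_zero 3 h3)
  have e : (1 - 4⁻¹ : ZMod p) = 3 * 4⁻¹ := by
    field_simp
    norm_num
  rw [pow_a h2 (inv_ne_zero h4) (by omega), e, pow_succ (3 * 4⁻¹ : ZMod p) (3 * j),
    pow_mul (3 * 4⁻¹ : ZMod p) 3 j, mul_pow (3 : ZMod p) (4⁻¹) 3, mul_pow (3 ^ 3 : ZMod p),
    show (3 ^ 3 : ZMod p) = 27 by norm_num, mul_inv]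
  have e2 : ((((4⁻¹ : ZMod p)) ^ 2)⁻¹) ^ j * ((4⁻¹ : ZMod p) ^ 3) ^ j = (4⁻¹) ^ j := by
    rw [← mul_pow]
    congr 1
    field_simp
  calc ph p j * (3⁻¹ * (27 ^ j)⁻¹) * (((((4⁻¹ : ZMod p)) ^ 2)⁻¹) ^ j * (27 ^ j * ((4⁻¹ : ZMod p) ^ 3) ^ j * (3 * 4⁻¹)))
      = ph p j * (3⁻¹ * 3) * ((27 ^ j)⁻¹ * 27 ^ j) * (((((4⁻¹ : ZMod p)) ^ 2)⁻¹) ^ j * ((4⁻¹ : ZMod p) ^ 3) ^ j) * 4⁻¹ := by
        ring
    _ = 4⁻¹ * (ph p j * (4⁻¹) ^ j) := by
        rw [inv_mul_cancel₀ h3, inv_mul_cancel₀ h27, e2]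
        ring

/-- coefficients of an element of the kernel of `θ` -/
theorem kernel {U : (ZMod p)[X]} (h : th U = 0) (e : ℕ) (he : (3 * (e : ZMod p) + 1) ≠ 0) : U.coeff e = 0 := by
  have h1 := th_coeff U e
  rw [h, coeff_zero] at h1
  rcases mul_eq_zero.1 h1.symm with h2 | h2
  · exact absurd h2 he
  · exact h2

end Pool.Agent.Q33.Cub
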