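import Pool.Agent.Q33.Cub.Two

/-! The case `p ≡ 1 (mod 3)`. -/

namespace Pool.Agent.Q33.Cub

open Finset Polynomial

section harmonic
variable {p : ℕ} [Fact p.Prime]

variable (p) in
/-- harmonic numbers modulo `p` -/
noncomputable def H (k : ℕ) : ZMod p := ∑ i ∈ range k, ((i : ZMod p) + 1)⁻¹

theorem H_succ (k : ℕ) : H p (k + 1) = H p k + ((k : ZMod p) + 1)⁻¹ := by
  unfold H
  rw [sum_range_succ]

theorem cast_ne' {j : ℕ} (hj : j + 1 < p) : ((j : ZMod p) + 1) ≠ 0 := by
  have := cast_ne (p := p) (j := j + 1) (by omega) hj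
  push_cast at this
  exact this

theorem H_pred (h2 : p ≠ 2) : H p (p - 1) = 0 := by
  have h1 : H p (p - 1) = -H p (p - 1) := by
    unfold H
    conv_lhs => rw [← sum_range_reflect]
    rw [← sum_neg_distrib]
    refine sum_congr rfl fun i hi => ?_
    rw [mem_range] at hi
    have h3 : ((p - 1 - 1 - i : ℕ) : ZMod p) + 1 = -((i : ZMod p) + 1) := by
      have h4 : ((p - 1 - 1 - i : ℕ) : ZMod p) + 1 + (i + 1) = ((p : ℕ) : ZMod p) := by
        have : p - 1 - 1 - i + 1 + (i + 1) = p := by omega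
        exact_mod_cast congrArg (fun n : ℕ => (n : ZMod p)) this
      rw [CharP.cast_eq_zero (ZMod p) p] at h4
      linear_combination h4
    rw [h3, inv_neg]
  have h5 : 2 * H p (p - 1) = 0 := by linear_combination h1
  exact (mul_eq_zero.1 h5).resolve_left (two_ne h2)

theorem H_reflect (h2 : p ≠ 2) {k : ℕ} (hk : k < p) : H p (p - 1 - k) = H p k := by
  induction k with
  | zero => rw [Nat.sub_zero, H_pred h2]; simp [H]
  | succ k ih =>
    have h1 := ih (by omega)
    have h3 := H_succ (p := p) (p - 1 - (k + 1))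
    rw [show p - 1 - (k + 1) + 1 = p - 1 - k by omega, h1] at h3
    have h4 : ((p - 1 - (k + 1) : ℕ) : ZMod p) + 1 = -((k : ZMod p) + 1) := by
      have h5 : ((p - 1 - (k + 1) : ℕ) : ZMod p) + 1 + (k + 1) = ((p : ℕ) : ZMod p) := by
        have : p - 1 - (k + 1) + 1 + (k + 1) = p := by omega
        exact_mod_cast congrArg (fun n : ℕ => (n : ZMod p)) this
      rw [CharP.cast_eq_zero (ZMod p) p] at h5
      linear_combination h5
    rw [h4, inv_neg] at h3
    rw [H_succ]
    linear_combination -h3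

theorem h6' {n : ℕ} (hn : n + 1 < p) :
    ∑ j ∈ range (n + 1), ((-1) ^ j * (n.choose j : ZMod p)) / ((j : ZMod p) + 1) = ((n : ZMod p) + 1)⁻¹ := by
  have hx : ∀ j ≤ n, (1 : ZMod p) + j ≠ 0 := by
    intro j hj
    have := cast_ne' (p := p) (j := j) (by omega)
    rw [add_comm]
    exact this
  have h5 := partial_frac n (1 : ZMod p) hx
  have h7 : ∑ j ∈ range (n + 1), ((-1) ^ j * (n.choose j : ZMod p)) / ((j : ZMod p) + 1)
      = ∑ j ∈ range (n + 1), ((-1) ^ j * (n.choose j : ZMod p)) / (1 + (j : ZMod p)) :=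
    sum_congr rfl fun j _ => by rw [add_comm (j : ZMod p) 1]
  rw [h7, h5]
  have h8 : ∏ j ∈ range (n + 1), ((1 : ZMod p) + j) = (((n + 1).factorial : ℕ) : ZMod p) := by
    rw [← prod_range_add_one_eq_factorial]
    push_cast
    refine prod_congr rfl fun j _ => ?_
    ring
  have h9 : ((n.factorial : ℕ) : ZMod p) ≠ 0 := by
    intro h0
    rw [ZMod.natCast_eq_zero_iff, (Fact.out : p.Prime).dvd_factorial] at h0
    omega
  have h10 := cast_ne' (p := p) (j := n) hn
  rw [h8, Nat.factorial_succ]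
  push_cast
  field_simp

/-- regularized partial fractions -/
theorem reg_frac (n k : ℕ) (hn : n < p) (hk : k ≤ n) :
    ∑ j ∈ range (n + 1), ((-1) ^ j * (n.choose j : ZMod p)) / ((j : ZMod p) - k)
      = (-1) ^ k * (n.choose k : ZMod p) * (H p k - H p (n - k)) := by
  induction n generalizing k with
  | zero =>
    have : k = 0 := by omega
    subst this
    simp [H]
  | succ n ih =>
    rcases Nat.eq_zero_or_pos k with rfl | hkpos
    · -- `k = 0`
      have h0 := ih 0 (by omega) (by omega)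
      have h1 : ∑ j ∈ range (n + 1 + 1), ((-1) ^ j * ((n + 1).choose j : ZMod p)) / ((j : ZMod p) - (0 : ℕ))
          = ∑ j ∈ range (n + 1), ((-1) ^ j * (n.choose j : ZMod p)) / ((j : ZMod p) - (0 : ℕ))
            - ∑ j ∈ range (n + 1), ((-1) ^ j * (n.choose j : ZMod p)) / ((j : ZMod p) + 1) := by
        rw [sum_range_succ' _ (n + 1),
          sum_range_succ' (fun j => ((-1) ^ j * (n.choose j : ZMod p)) / ((j : ZMod p) - (0 : ℕ))) n]
        have h4 : ∑ k ∈ range (n + 1), ((-1) ^ (k + 1) * ((n + 1).choose (k + 1) : ZMod p)) / (((k + 1 : ℕ) : ZMod p) - (0 : ℕ))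
            = ∑ k ∈ range (n + 1), ((-1) ^ (k + 1) * (n.choose (k + 1) : ZMod p)) / (((k + 1 : ℕ) : ZMod p) - (0 : ℕ))
              - ∑ j ∈ range (n + 1), ((-1) ^ j * (n.choose j : ZMod p)) / ((j : ZMod p) + 1) := by
          rw [← sum_sub_distrib]
          refine sum_congr rfl fun k _ => ?_
          rw [Nat.choose_succ_succ]
          push_cast
          rw [sub_zero, pow_succ]
          ring
        rw [h4, sum_range_succ (fun k => ((-1) ^ (k + 1) * (n.choose (k + 1) : ZMod p)) / (((k + 1 : ℕ) : ZMod p) - (0 : ℕ))) n,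
          Nat.choose_succ_self]
        simp
      rw [h1, h0]
      have h6 := h6' (p := p) (n := n) hn
      rw [h6, Nat.sub_zero, Nat.sub_zero, H_succ]
      simp
      ring
    · -- `k ≥ 1`
      obtain ⟨k, rfl⟩ : ∃ m, k = m + 1 := ⟨k - 1, by omega⟩
      have h1 : ∑ j ∈ range (n + 1 + 1), ((-1) ^ j * ((n + 1).choose j : ZMod p)) / ((j : ZMod p) - (k + 1 : ℕ))
          = ∑ j ∈ range (n + 1 + 1), ((-1) ^ j * (n.choose j : ZMod p)) / ((j : ZMod p) - (k + 1 : ℕ))
            - ∑ j ∈ range (n + 1), ((-1) ^ j * (n.choose j : ZMod p)) / ((j : ZMod p) - k) := by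
        rw [sum_range_succ' _ (n + 1),
          sum_range_succ' (fun j => ((-1) ^ j * (n.choose j : ZMod p)) / ((j : ZMod p) - (k + 1 : ℕ))) (n + 1)]
        have h4 : ∑ i ∈ range (n + 1), ((-1) ^ (i + 1) * ((n + 1).choose (i + 1) : ZMod p)) / (((i + 1 : ℕ) : ZMod p) - (k + 1 : ℕ))
            = ∑ i ∈ range (n + 1), ((-1) ^ (i + 1) * (n.choose (i + 1) : ZMod p)) / (((i + 1 : ℕ) : ZMod p) - (k + 1 : ℕ))
              - ∑ j ∈ range (n + 1), ((-1) ^ j * (n.choose j : ZMod p)) / ((j : ZMod p) - k) := by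
          rw [← sum_sub_distrib]
          refine sum_congr rfl fun i _ => ?_
          rw [Nat.choose_succ_succ]
          push_cast
          rw [show (i : ZMod p) + 1 - (k + 1) = i - k by ring, pow_succ]
          ring
        rw [h4]
        simp
        ring
      have hkn : k ≤ n := by omega
      have h2 := ih k (by omega) hkn
      rcases Nat.lt_or_ge k n with hlt | hge
      · have h3 : ∑ j ∈ range (n + 1 + 1), ((-1) ^ j * (n.choose j : ZMod p)) / ((j : ZMod p) - (k + 1 : ℕ))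
            = (-1) ^ (k + 1) * (n.choose (k + 1) : ZMod p) * (H p (k + 1) - H p (n - (k + 1))) := by
          rw [sum_range_succ, Nat.choose_succ_self, ih (k + 1) (by omega) (by omega)]
          simp
        rw [h1, h2, h3, Nat.choose_succ_succ n k, show n + 1 - (k + 1) = n - k by omega]
        have h4 := H_succ (p := p) (n - (k + 1))
        rw [show n - (k + 1) + 1 = n - k by omega] at h4
        have h5 : ((n - (k + 1) : ℕ) : ZMod p) + 1 = (n : ZMod p) - k := by
          have : n - (k + 1) + 1 + k = n := by omega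
          have h6 := congrArg (fun n : ℕ => (n : ZMod p)) this
          push_cast at h6
          linear_combination h6
        rw [h5] at h4
        have h7 : ((n.choose (k + 1) : ℕ) : ZMod p) * ((k : ZMod p) + 1) = ((n.choose k : ℕ) : ZMod p) * ((n : ZMod p) - k) := by
          have h8 := Nat.choose_succ_right_eq n k
          have h9 : ((n - k : ℕ) : ZMod p) = (n : ZMod p) - k := by
            rw [Nat.cast_sub hkn]
          rw [← h9]
          exact_mod_cast congrArg (fun n : ℕ => (n : ZMod p)) h8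
        have hk1 := cast_ne' (p := p) (j := k) (by omega)
        have hnk : (n : ZMod p) - k ≠ 0 := by
          have h10 := cast_ne (p := p) (j := n - k) (by omega) (by omega)
          rw [Nat.cast_sub hkn] at h10
          exact h10
        have h11 : ((n.choose (k + 1) : ℕ) : ZMod p) * ((n : ZMod p) - k)⁻¹ = ((n.choose k : ℕ) : ZMod p) * ((k : ZMod p) + 1)⁻¹ := by
          field_simp
          linear_combination h7
        rw [h4, H_succ (p := p) k]
        push_cast
        rw [pow_succ]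
        linear_combination (-(-1) ^ k) * h11
      · have : k = n := by omega
        subst this
        have h3 : ∑ j ∈ range (k + 1 + 1), ((-1) ^ j * (k.choose j : ZMod p)) / ((j : ZMod p) - (k + 1 : ℕ))
            = (-1) ^ (k + 1) * ((k : ZMod p) + 1)⁻¹ := by
          rw [sum_range_succ, Nat.choose_succ_self, ← h6' (p := p) (n := k) hn, ← sum_range_reflect, mul_sum]
          simp only [Nat.cast_zero, mul_zero, zero_div, add_zero]
          refine sum_congr rfl fun j hj => ?_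
          rw [mem_range] at hj
          rw [show k + 1 - 1 - j = k - j by omega, Nat.choose_symm (by omega)]
          have h4 : ((k - j : ℕ) : ZMod p) - (k + 1 : ℕ) = -((j : ZMod p) + 1) := by
            rw [Nat.cast_sub (by omega)]
            push_cast
            ring
          rw [h4, div_neg]
          have h5 : (-1 : ZMod p) ^ k = (-1) ^ (k - j) * (-1) ^ j := by
            rw [← pow_add, show k - j + j = k by omega]
          have h6 : (-1 : ZMod p) ^ j * (-1) ^ j = 1 := by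
            rw [← mul_pow]
            norm_num
          rw [pow_succ, h5]
          linear_combination ((-1) ^ (k - j) * (k.choose j : ZMod p) / ((j : ZMod p) + 1)) * h6
        rw [h1, h3, h2, H_succ]
        simp [H]
        ring

/-- integer representative of `ℓ(z) = ∑_{0<i<p} z^i/i` -/
theorem ell_int (z : ℤ) (h2 : p ≠ 2) : ∃ L : ℤ, (p : ℤ) * L = 1 - z ^ p - (1 - z) ^ p ∧
    (L : ZMod p) = ∑ i ∈ range (p - 1), (z : ZMod p) ^ (i + 1) * ((i : ZMod p) + 1)⁻¹ := by
  have hp : p.Prime := Fact.out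
  have hpos := hp.pos
  have hodd : Odd p := hp.odd_of_ne_two h2
  -- `C(p,i+1) = p c_i`
  have hc : ∀ i : ℕ, ∃ c : ℤ, i < p - 1 → ((p.choose (i + 1) : ℕ) : ℤ) = p * c ∧ (c : ZMod p) = (-1) ^ i * ((i : ZMod p) + 1)⁻¹ := by
    intro i
    by_cases hi : i < p - 1
    · have h1 : (p : ℤ) ∣ ((p.choose (i + 1) : ℕ) : ℤ) := by
        exact_mod_cast hp.dvd_choose_self (by omega) (by omega)
      obtain ⟨c, hc⟩ := h1
      refine ⟨c, fun _ => ⟨hc, ?_⟩⟩
      have h3 : (i + 1) * p.choose (i + 1) = p * (p - 1).choose i := by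
        have := Nat.add_one_mul_choose_eq (p - 1) i
        rw [show p - 1 + 1 = p by omega] at this
        linarith
      have h3' : ((i : ℤ) + 1) * ((p.choose (i + 1) : ℕ) : ℤ) = p * (((p - 1).choose i : ℕ) : ℤ) := by
        exact_mod_cast h3
      have h4 : ((i : ℤ) + 1) * c = (((p - 1).choose i : ℕ) : ℤ) := by
        have hp0 : (p : ℤ) ≠ 0 := by exact_mod_cast hp.ne_zero
        apply mul_left_cancel₀ hp0
        rw [← h3', hc]
        ring
      have h5 := congrArg (fun z : ℤ => (z : ZMod p)) h4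
      push_cast at h5
      rw [choose_pred (by omega)] at h5
      have hne := cast_ne' (p := p) (j := i) (by omega)
      rw [← h5]
      field_simp
    · exact ⟨0, fun h => absurd h hi⟩
  choose c hc using hc
  refine ⟨∑ i ∈ range (p - 1), (-1) ^ i * z ^ (i + 1) * c i, ?_, ?_⟩
  · have h1 : (1 - z) ^ p = ∑ i ∈ range (p + 1), (-z) ^ i * ((p.choose i : ℕ) : ℤ) := by
      rw [show (1 - z) = -z + 1 by ring, add_pow]
      refine sum_congr rfl fun i _ => ?_
      rw [one_pow, mul_one]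
    rw [sum_range_succ, show p = p - 1 + 1 by omega, sum_range_succ', show p - 1 + 1 = p by omega] at h1
    rw [h1, Nat.choose_self, Nat.choose_zero_right, hodd.neg_pow, mul_sum]
    have h6 : ∑ k ∈ range (p - 1), (-z) ^ (k + 1) * ((p.choose (k + 1) : ℕ) : ℤ)
        = -∑ i ∈ range (p - 1), (p : ℤ) * ((-1) ^ i * z ^ (i + 1) * c i) := by
      rw [← sum_neg_distrib]
      refine sum_congr rfl fun i hi => ?_
      rw [mem_range] at hi
      rw [(hc i hi).1, neg_pow, pow_succ (-1 : ℤ)]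
      ring
    rw [h6]
    push_cast
    ring
  · push_cast
    refine sum_congr rfl fun i hi => ?_
    rw [mem_range] at hi
    rw [(hc i hi).2]
    have h6 : (-1 : ZMod p) ^ i * (-1) ^ i = 1 := by
      rw [← mul_pow]
      norm_num
    linear_combination ((z : ZMod p) ^ (i + 1) * ((i : ZMod p) + 1)⁻¹) * h6

variable (p) in
/-- `ℓ(z)` -/
noncomputable def ell (z : ZMod p) : ZMod p := ∑ i ∈ range (p - 1), z ^ (i + 1) * ((i : ZMod p) + 1)⁻¹

theorem ell_rel (h2 : p ≠ 2) : ell p (-2) + ell p 4 = 3 * ell p (-1) := by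
  obtain ⟨a, ha, ha'⟩ := ell_int (p := p) (-2) h2
  obtain ⟨b, hb, hb'⟩ := ell_int (p := p) 4 h2
  obtain ⟨c, hc, hc'⟩ := ell_int (p := p) (-1) h2
  have hp : p.Prime := Fact.out
  have hodd : Odd p := hp.odd_of_ne_two h2
  have ea : ell p (-2) = (a : ZMod p) := by rw [ha']; unfold ell; push_cast; rfl
  have eb : ell p 4 = (b : ZMod p) := by rw [hb']; unfold ell; push_cast; rfl
  have ec : ell p (-1) = (c : ZMod p) := by rw [hc']; unfold ell; push_cast; rfl
  rw [hodd.neg_pow] at ha hc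
  norm_num at ha hb hc
  rw [hodd.neg_pow] at hb
  have h4 : (4 : ℤ) ^ p = 2 ^ p * 2 ^ p := by rw [← mul_pow]; norm_num
  have hp0 : (p : ℤ) ≠ 0 := by exact_mod_cast hp.ne_zero
  have key : a + b = (2 ^ p + 1) * c := by
    apply mul_left_cancel₀ hp0
    linear_combination ha + hb - (2 ^ p + 1) * hc - h4
  have key2 := congrArg (fun z : ℤ => (z : ZMod p)) key
  push_cast at key2
  rw [ZMod.pow_card] at key2
  rw [ea, eb, ec, key2]
  ring

theorem ell_inv (h2 : p ≠ 2) {z : ZMod p} (hz : z ≠ 0) : ell p z⁻¹ = -(ell p z * z⁻¹) := by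
  unfold ell
  conv_lhs => rw [← sum_range_reflect]
  rw [sum_mul, ← sum_neg_distrib]
  refine sum_congr rfl fun i hi => ?_
  rw [mem_range] at hi
  have h3 : ((p - 1 - 1 - i : ℕ) : ZMod p) + 1 = -((i : ZMod p) + 1) := by
    have h4 : ((p - 1 - 1 - i : ℕ) : ZMod p) + 1 + (i + 1) = ((p : ℕ) : ZMod p) := by
      have : p - 1 - 1 - i + 1 + (i + 1) = p := by omega
      exact_mod_cast congrArg (fun n : ℕ => (n : ZMod p)) this
    rw [CharP.cast_eq_zero (ZMod p) p] at h4
    linear_combination h4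
  have h5 : z⁻¹ ^ (p - 1 - 1 - i + 1) = z ^ (i + 1) * z⁻¹ := by
    have h6 : z⁻¹ ^ (p - 1 - 1 - i + 1) * z⁻¹ ^ (i + 1) = z⁻¹ := by
      rw [← pow_add, show p - 1 - 1 - i + 1 + (i + 1) = p by omega, ZMod.pow_card]
    have h7 : z⁻¹ ^ (i + 1) * z ^ (i + 1) = 1 := by
      rw [← mul_pow, inv_mul_cancel₀ hz, one_pow]
    linear_combination z ^ (i + 1) * h6 - z⁻¹ ^ (p - 1 - 1 - i + 1) * h7
  rw [h3, h5, inv_neg]
  ring

theorem ell_neg_one (h2 : p ≠ 2) : ell p (-1) = H p (hh p) := by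
  have h1 := H_pred (p := p) h2
  have hh2 := two_hh h2
  have h3 : ell p (-1) + H p (p - 1) = H p (hh p) := by
    have e1 : p - 1 = 2 * hh p := by omega
    unfold ell H
    rw [e1, ← sum_add_distrib]
    have h4 : ∀ m, m ≤ hh p → ∑ i ∈ range (2 * m), ((-1 : ZMod p) ^ (i + 1) * ((i : ZMod p) + 1)⁻¹ + ((i : ZMod p) + 1)⁻¹)
        = ∑ i ∈ range m, ((i : ZMod p) + 1)⁻¹ := by
      intro m
      induction m with
      | zero => simp
      | succ m ih =>
        intro hm
        rw [show 2 * (m + 1) = 2 * m + 1 + 1 by ring, sum_range_succ, sum_range_succ, ih (by omega), sum_range_succ]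
        have e2 : (-1 : ZMod p) ^ (2 * m + 1) = -1 := Odd.neg_one_pow ⟨m, rfl⟩
        have e3 : (-1 : ZMod p) ^ (2 * m + 1 + 1) = 1 := Even.neg_one_pow ⟨m + 1, by ring⟩
        rw [e2, e3]
        have h2' := two_ne (p := p) h2
        have hm1 := cast_ne' (p := p) (j := m) (by omega)
        have e4 : (((2 * m + 1 : ℕ) : ZMod p) + 1) = 2 * ((m : ZMod p) + 1) := by push_cast; ring
        rw [e4]
        field_simp
        ring
    exact h4 (hh p) le_rfl
  rw [h1, add_zero] at h3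
  exact h3

end harmonic

/-! ### `p = 6n + 1` -/

section one
variable {p : ℕ} [Fact p.Prime] {n : ℕ} (hn : p = 6 * n + 1)
include hn

theorem n_pos1 : 1 ≤ n := by
  have := (Fact.out : p.Prime).one_lt
  omega

theorem hh_eq1 : hh p = 3 * n := by
  unfold hh
  omega

theorem three_ne1 : (3 : ZMod p) ≠ 0 := by
  intro h
  have h' : ((3 : ℕ) : ZMod p) = 0 := by exact_mod_cast h
  rw [ZMod.natCast_eq_zero_iff] at h'
  have hp : p.Prime := Fact.out
  have := (Nat.prime_dvd_prime_iff_eq hp Nat.prime_three).1 h'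
  omega

theorem lin_ne1 {e : ℕ} (he : e ≤ p + hh p) (h : e ≠ 2 * n) (h' : e ≠ 2 * n + p) : (3 * (e : ZMod p) + 1) ≠ 0 := by
  intro h0
  have h' : ((3 * e + 1 : ℕ) : ZMod p) = 0 := by
    push_cast
    exact h0
  rw [ZMod.natCast_eq_zero_iff] at h'
  rw [hh_eq1 hn] at he
  obtain ⟨k, hk⟩ := h'
  have hk5 : k < 5 := by
    by_contra hk5
    push Not at hk5
    have : p * 5 ≤ p * k := Nat.mul_le_mul_left p hk5
    omega
  interval_cases k <;> omega

theorem six_n1 : (6 * (n : ZMod p)) = -1 := by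
  have h1 : ((p : ℕ) : ZMod p) = ((6 * n + 1 : ℕ) : ZMod p) := by rw [← hn]
  push_cast at h1
  rw [CharP.cast_eq_zero] at h1
  linear_combination -h1

theorem lin_zero : (3 * ((2 * n : ℕ) : ZMod p) + 1) = 0 := by
  have := six_n1 hn
  push_cast
  linear_combination this

variable (p n) in
/-- `γ = C(h,2n) (-4)^(2n)` -/
noncomputable def ga : ZMod p := ((hh p).choose (2 * n) : ZMod p) * (-4) ^ (2 * n)

theorem ka_eq1 {j : ℕ} (hj : j ≤ hh p) :
    ka p j = ((hh p).choose j : ZMod p) * (-4) ^ j - (if j = 2 * n then ga p n else 0) := by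
  by_cases h : j = 2 * n
  · subst h
    rw [if_pos rfl]
    unfold ka ga
    rw [lin_zero hn]
    ring
  · rw [if_neg h, sub_zero]
    unfold ka ph
    have h1 := hh_eq1 hn
    have : (3 * (j : ZMod p) + 1) ≠ 0 := lin_ne1 hn (by omega) h (by omega)
    field_simp

theorem ph_zero : ph p (2 * n) = 0 := by
  unfold ph
  rw [lin_zero hn, div_zero]

theorem ga_ne : ga p n ≠ 0 := by
  have h1 := hh_eq1 hn
  have h2' := two_ne (p := p) (by omega)
  unfold ga
  refine mul_ne_zero ?_ (pow_ne_zero _ ?_)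
  · intro h
    rw [ZMod.natCast_eq_zero_iff, h1] at h
    have h3 : p ∣ (3 * n).factorial := by
      have := Nat.choose_mul_factorial_mul_factorial (show 2 * n ≤ 3 * n by omega)
      rw [← this, mul_assoc]
      exact h.mul_right _
    rw [(Fact.out : p.Prime).dvd_factorial] at h3
    omega
  · intro h
    have : (2 : ZMod p) ^ 2 = 0 := by linear_combination -h
    exact h2' (pow_eq_zero_iff two_ne_zero |>.1 this)

/-- `θ f` -/
theorem th_f1 : th (f p) = (1 - 4 * X) ^ hh p - C (ga p n) * X ^ (2 * n) := by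
  rw [th_f, ← sum_binom]
  have h1 : ∀ j ∈ range (hh p + 1), C (ka p j) * (X : (ZMod p)[X]) ^ j
      = C (((hh p).choose j : ZMod p) * (-4) ^ j) * X ^ j - (if j = 2 * n then C (ga p n) * X ^ (2 * n) else 0) := by
    intro j hj
    rw [mem_range] at hj
    rw [ka_eq1 hn (by omega), C_sub]
    by_cases h : j = 2 * n
    · subst h
      rw [if_pos rfl, if_pos rfl]
      ring
    · rw [if_neg h, if_neg h, map_zero]
      ring
  rw [sum_congr rfl h1, sum_sub_distrib, sum_ite_eq' (range (hh p + 1)) (2 * n) (fun _ => C (ga p n) * (X : (ZMod p)[X]) ^ (2 * n)),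
    if_pos (by rw [mem_range, hh_eq1 hn]; omega)]

/-- `θ g` -/
theorem th_g1 : th (g p) = -C ((3 : ZMod p)⁻¹) * (X + 2) * (C (ep p) * (1 - 4 * X) ^ hh p * (X + 2) ^ (p - 1)
    - C (ga p n) * (X ^ (2 * n) * (1 - X) ^ (p - 1))) := by
  have h2 : p ≠ 2 := by omega
  have h3 := three_ne1 hn
  rw [th_g h2]
  congr 1
  unfold ep
  rw [← power_id h2 h3]
  have h27 : ((27 : ZMod p) ^ (2 * n))⁻¹ = 1 := by
    rw [show (27 : ZMod p) = 3 ^ 3 by norm_num, ← pow_mul, show 3 * (2 * n) = p - 1 by omega,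
      ZMod.pow_card_sub_one_eq_one h3, inv_one]
  have h1 : ∀ j ∈ range (hh p + 1), C (ka p j * (27 ^ j)⁻¹) * (X ^ (p - 1 - 2 * j) * (1 - X : (ZMod p)[X]) ^ (3 * j))
      = C (((hh p).choose j : ZMod p) * (-4) ^ j * (27 ^ j)⁻¹) * (X ^ (p - 1 - 2 * j) * (1 - X) ^ (3 * j))
        - (if j = 2 * n then C (ga p n) * (X ^ (2 * n) * (1 - X) ^ (p - 1)) else 0) := by
    intro j hj
    rw [mem_range] at hj
    rw [ka_eq1 hn (by omega)]
    by_cases h : j = 2 * n
    · subst h
      rw [if_pos rfl, if_pos rfl, h27, mul_one, mul_one, C_sub, show p - 1 - 2 * (2 * n) = 2 * n by omega,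
        show 3 * (2 * n) = p - 1 by omega]
      ring
    · rw [if_neg h, if_neg h, sub_zero, sub_zero]
  rw [sum_congr rfl h1, sum_sub_distrib,
    sum_ite_eq' (range (hh p + 1)) (2 * n) (fun _ => C (ga p n) * (X ^ (2 * n) * (1 - X : (ZMod p)[X]) ^ (p - 1))),
    if_pos (by rw [mem_range, hh_eq1 hn]; omega)]

theorem two_poly : ((2 : (ZMod p)[X])) ^ p = 2 := by
  rw [show (2 : (ZMod p)[X]) = C 2 from rfl, ← map_pow, ZMod.pow_card]

theorem X_two_pow : ((X + 2 : (ZMod p)[X])) ^ p = X ^ p + 2 := by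
  rw [add_pow_char, two_poly hn]

theorem one_sub_pow : (1 - X : (ZMod p)[X]) ^ (p - 1) = ∑ i ∈ range p, X ^ i := by
  have h1 : (1 - X : (ZMod p)[X]) ^ p = 1 - X ^ p := by
    rw [sub_pow_char, one_pow]
  have h2 : (1 - X : (ZMod p)[X]) * ∑ i ∈ range p, X ^ i = 1 - X ^ p := mul_neg_geom_sum X p
  have hne : (1 - X : (ZMod p)[X]) ≠ 0 := by
    intro h
    have := congrArg (eval 0) h
    simp at this
  apply mul_left_cancel₀ hne
  rw [h2, ← h1, ← pow_succ']
  congr 1
  have := (Fact.out : p.Prime).pos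
  omega

/-- `ε = 1` -/
theorem ep_eq1 : ep p = 1 := by
  have h2 : p ≠ 2 := by omega
  have h3 := three_ne1 hn
  have h2' := two_ne (p := p) h2
  have h := th_coeff (U p) (2 * n)
  rw [lin_zero hn, zero_mul] at h
  unfold U at h
  rw [th_add, th_C_mul, th_mul_pow, th_f1 hn, th_g1 hn] at h
  have e3 : ((X + 2) ^ p : (ZMod p)[X]) = (X + 2) * (X + 2) ^ (p - 1) := by
    rw [← pow_succ']
    congr 1
    have := (Fact.out : p.Prime).pos
    omega
  have e4 : -C (3⁻¹ : ZMod p) * (X + 2) * (C (ep p) * (1 - 4 * X) ^ hh p * (X + 2) ^ (p - 1)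
      - C (ga p n) * (X ^ (2 * n) * (1 - X) ^ (p - 1)))
      + C (ep p * 3⁻¹) * ((X + 2) ^ p * ((1 - 4 * X) ^ hh p - C (ga p n) * X ^ (2 * n)))
      = X ^ (2 * n) * (C (ga p n * 3⁻¹) * ((X + 2) * (1 - X) ^ (p - 1) - C (ep p) * (X + 2) ^ p)) := by
    rw [e3]
    simp only [map_mul]
    ring
  rw [e4] at h
  have h5 : (X ^ (2 * n) * (C (ga p n * 3⁻¹) * ((X + 2) * (1 - X) ^ (p - 1) - C (ep p) * (X + 2) ^ p))).coeff (2 * n)
      = (C (ga p n * 3⁻¹) * ((X + 2) * (1 - X) ^ (p - 1) - C (ep p) * (X + 2) ^ p)).coeff 0 := by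
    have := coeff_X_pow_mul (C (ga p n * 3⁻¹) * ((X + 2) * (1 - X) ^ (p - 1) - C (ep p) * (X + 2) ^ p)) (2 * n) 0
    rw [zero_add] at this
    exact this
  rw [h5, coeff_zero_eq_eval_zero, X_two_pow hn] at h
  have hpos := (Fact.out : p.Prime).pos
  have e2 : eval (0 : ZMod p) (2 : (ZMod p)[X]) = 2 := by
    rw [show (2 : (ZMod p)[X]) = C 2 from rfl, eval_C]
  simp only [eval_mul, eval_sub, eval_add, eval_pow, eval_X, eval_C, eval_one, e2, zero_add, sub_zero, one_pow,
    mul_one, zero_pow hpos.ne'] at h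
  have h6 : (ga p n * 3⁻¹) * (2 * (1 - ep p)) = 0 := by linear_combination h
  rcases mul_eq_zero.1 h6 with h7 | h7
  · exact absurd h7 (mul_ne_zero (ga_ne hn) (inv_ne_zero h3))
  · rcases mul_eq_zero.1 h7 with h8 | h8
    · exact absurd h8 h2'
    · linear_combination -h8

variable (p) in
/-- `ℓ` as a polynomial -/
noncomputable def ellP : (ZMod p)[X] := ∑ i ∈ range (p - 1), C (((i : ZMod p) + 1)⁻¹) * X ^ (i + 1)

omit hn in
theorem ellP_eval (z : ZMod p) : (ellP p).eval z = ell p z := by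
  unfold ellP ell
  rw [eval_finsetSum]
  refine sum_congr rfl fun i _ => ?_
  rw [eval_C_mul, eval_pow, eval_X]
  ring

theorem th_ellP : th (X ^ (2 * n) * ellP p) = 3 * X ^ (2 * n) * ∑ i ∈ range (p - 1), X ^ (i + 1) := by
  unfold ellP
  rw [mul_sum, th_sum, mul_sum]
  refine sum_congr rfl fun i hi => ?_
  rw [mem_range] at hi
  have h1 : (X : (ZMod p)[X]) ^ (2 * n) * (C (((i : ZMod p) + 1)⁻¹) * X ^ (i + 1))
      = C (((i : ZMod p) + 1)⁻¹) * X ^ (2 * n + (i + 1)) := by
    rw [pow_add]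
    ring
  have hne := cast_ne' (p := p) (j := i) (by omega)
  rw [h1, th_C_mul, th_X_pow]
  have h2 : (3 * ((2 * n + (i + 1) : ℕ) : (ZMod p)[X]) + 1) = C (3 * ((i : ZMod p) + 1)) := by
    have h3 : (3 * ((2 * n + (i + 1) : ℕ) : ZMod p) + 1) = 3 * ((i : ZMod p) + 1) := by
      have := lin_zero hn
      push_cast at this ⊢
      linear_combination this
    rw [← h3]
    simp only [map_add, map_mul, map_one, map_natCast]
    rfl
  rw [h2, ← mul_assoc, ← map_mul, show ((i : ZMod p) + 1)⁻¹ * (3 * ((i : ZMod p) + 1)) = 3 by field_simp,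
    show (C (3 : ZMod p) : (ZMod p)[X]) = 3 from rfl, pow_add]
  ring

variable (p n) in
/-- the combination killed by `θ` -/
noncomputable def W : (ZMod p)[X] := U p - C (ga p n * 3⁻¹) * (X ^ (2 * n) * ellP p)

theorem th_W : th (W p n) = 0 := by
  have h3 := three_ne1 hn
  unfold W U
  rw [th_sub, th_add, th_C_mul, th_mul_pow, th_f1 hn, th_g1 hn, th_C_mul, th_ellP hn, ep_eq1 hn]
  have e3 : ((X + 2) ^ p : (ZMod p)[X]) = (X + 2) * (X + 2) ^ (p - 1) := by
    rw [← pow_succ']
    congr 1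
    have := (Fact.out : p.Prime).pos
    omega
  have e5 : ((X + 2) ^ (p - 1) : (ZMod p)[X]) * (X + 2) = X ^ p + 2 := by
    rw [← X_two_pow hn, e3]
    ring
  have e6 : (X + 2 : (ZMod p)[X]) * (1 - X) ^ (p - 1) - (X ^ p + 2) = 3 * ∑ i ∈ range (p - 1), X ^ (i + 1) := by
    rw [one_sub_pow hn]
    have gen1 : ∀ m : ℕ, 1 ≤ m → ∑ i ∈ range m, (X : (ZMod p)[X]) ^ i = ∑ i ∈ range (m - 1), X ^ (i + 1) + 1 := by
      intro m hm
      obtain ⟨k, rfl⟩ : ∃ k, m = k + 1 := ⟨m - 1, by omega⟩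
      rw [sum_range_succ', pow_zero, Nat.add_sub_cancel]
    have gen2 : ∀ m : ℕ, 1 ≤ m → (X : (ZMod p)[X]) * ∑ i ∈ range m, X ^ i
        = ∑ i ∈ range (m - 1), X ^ (i + 1) + X ^ m := by
      intro m hm
      obtain ⟨k, rfl⟩ : ∃ k, m = k + 1 := ⟨m - 1, by omega⟩
      rw [mul_sum, sum_range_succ, ← pow_succ', Nat.add_sub_cancel]
      congr 1
      refine sum_congr rfl fun i _ => ?_
      rw [pow_succ]
      ring
    have h1 := gen1 p (by omega)
    have h2 := gen2 p (by omega)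
    linear_combination h2 + 2 * h1
  rw [map_one, one_mul, one_mul]
  simp only [map_mul]
  linear_combination (C (ga p n) * C (3⁻¹ : ZMod p) * X ^ (2 * n)) * e6
    - (C (3⁻¹ : ZMod p) * C (ga p n) * X ^ (2 * n)) * e5 + (C (3⁻¹ : ZMod p) * ((1 - 4 * X) ^ hh p)) * e3
    - (C (3⁻¹ : ZMod p) * C (ga p n) * X ^ (2 * n)) * e3

theorem natDegree_W : (W p n).natDegree ≤ p + hh p := by
  have h1 := hh_eq1 hn
  unfold W
  refine (natDegree_sub_le _ _).trans (max_le (natDegree_U (by omega)) ?_)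
  refine (natDegree_C_mul_le _ _).trans (natDegree_mul_le.trans ?_)
  have h2 : (X ^ (2 * n) : (ZMod p)[X]).natDegree ≤ 2 * n := natDegree_X_pow_le _
  have h3 : (ellP p).natDegree ≤ p - 1 := by
    unfold ellP
    apply natDegree_sum_le_of_forall_le
    intro i hi
    rw [mem_range] at hi
    exact (natDegree_C_mul_X_pow_le _ _).trans (by omega)
  omega

theorem W_eval (x : ZMod p) :
    (W p n).eval x = x ^ (2 * n) * ((W p n).coeff (2 * n) + (W p n).coeff (2 * n + p) * x) := by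
  have h1 := hh_eq1 hn
  rw [eval_eq_sum_range' (Nat.lt_succ_of_le (natDegree_W hn))]
  have hsub : ({2 * n, 2 * n + p} : Finset ℕ) ⊆ range ((p + hh p) + 1) := by
    intro e he
    rw [mem_insert, mem_singleton] at he
    rw [mem_range]
    omega
  rw [← sum_subset hsub]
  · rw [sum_pair (by omega), pow_add, ZMod.pow_card]
    ring
  · intro e he hne
    rw [mem_range] at he
    rw [mem_insert, mem_singleton, not_or] at hne
    rw [kernel (th_W hn) e (lin_ne1 hn (by omega) hne.1 hne.2), zero_mul]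

/-- harmonic sums -/
theorem H_rel : H p (2 * n) = H p n - H p (3 * n) := by
  have h2 : p ≠ 2 := by omega
  have h2' := two_ne (p := p) h2
  have h6 := six_n1 hn
  have hm : ∀ m, m ≤ n → 2 * H p (2 * m) = H p m + (H p (3 * n + m) - H p (3 * n)) := by
    intro m
    induction m with
    | zero => intro _; simp [H]
    | succ m ih =>
      intro hm
      have h1 := ih (by omega)
      rw [show 2 * (m + 1) = 2 * m + 1 + 1 by ring, H_succ, H_succ, H_succ (p := p) m,
        show 3 * n + (m + 1) = 3 * n + m + 1 by ring, H_succ]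
      have e1 : (((2 * m + 1 : ℕ) : ZMod p) + 1) = 2 * ((m : ZMod p) + 1) := by push_cast; ring
      have e2 : (((2 * m : ℕ) : ZMod p) + 1) = 2 * (((3 * n + m : ℕ) : ZMod p) + 1) := by
        push_cast
        linear_combination -h6
      rw [e1, e2, mul_inv, mul_inv]
      have e3 : (2 : ZMod p) * 2⁻¹ = 1 := mul_inv_cancel₀ h2'
      linear_combination h1 + ((((3 * n + m : ℕ) : ZMod p) + 1)⁻¹ + ((m : ZMod p) + 1)⁻¹) * e3
  have h1 := hm n le_rfl
  have h3 := H_reflect (p := p) h2 (k := 2 * n) (by omega)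
  rw [show p - 1 - 2 * n = 3 * n + n by omega] at h3
  rw [h3] at h1
  linear_combination h1

/-- `β 4^(-n) = (γ/3) (H_{2n} - H_n)` -/
theorem be_eq1 : 3 * (be p * 4 ^ (2 * n)) = ga p n * (H p (2 * n) - H p n) * 1 := by
  have h1 := hh_eq1 hn
  have h2 : p ≠ 2 := by omega
  have h2' := two_ne (p := p) h2
  have h3 := three_ne1 hn
  have h4 : (4 : ZMod p) ≠ 0 := by
    rw [show (4 : ZMod p) = 2 ^ 2 by norm_num]
    exact pow_ne_zero 2 h2'
  have hr := reg_frac (p := p) (3 * n) (2 * n) (by omega) (by omega)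
  have hb : 3 * be p = ∑ j ∈ range (3 * n + 1), ((-1) ^ j * ((3 * n).choose j : ZMod p)) / ((j : ZMod p) - (2 * n : ℕ)) := by
    unfold be
    rw [h1, mul_sum]
    refine sum_congr rfl fun j hj => ?_
    rw [mem_range] at hj
    have e0 : (3 * (j : ZMod p) + 1) = 3 * ((j : ZMod p) - (2 * n : ℕ)) := by
      have := lin_zero hn
      linear_combination this
    unfold ph
    rw [h1, e0]
    have e1 : (-4 : ZMod p) ^ j * (4⁻¹) ^ j = (-1) ^ j := by
      rw [← mul_pow]
      congr 1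
      field_simp
    rw [← e1]
    by_cases hz : (j : ZMod p) - (2 * n : ℕ) = 0
    · rw [hz]
      simp
    · field_simp
  rw [hr, show 3 * n - 2 * n = n by omega, Even.neg_one_pow (even_two_mul n)] at hb
  unfold ga
  rw [h1, Even.neg_pow (even_two_mul n)]
  linear_combination 4 ^ (2 * n) * hb

theorem f_one_zero : (f p).eval 1 = 0 := by
  have h1 := hh_eq1 hn
  have h2 : p ≠ 2 := by omega
  have h2' := two_ne (p := p) h2
  have h3 := three_ne1 hn
  have h4 : (4 : ZMod p) ≠ 0 := by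
    rw [show (4 : ZMod p) = 2 ^ 2 by norm_num]
    exact pow_ne_zero 2 h2'
  have e1 := W_eval hn 1
  have e2 := W_eval hn (-2)
  have e3 := W_eval hn (4⁻¹)
  unfold W at e1 e2 e3
  rw [eval_sub, eval_C_mul, eval_mul, eval_pow, eval_X, ellP_eval] at e1 e2 e3
  rw [U_one h2 h3, ep_eq1 hn] at e1
  rw [U_neg_two h2 h3] at e2
  have e4 := U_quarter (p := p) h2 h3
  rw [ep_eq1 hn] at e4
  set r1 := (U p - C (ga p n * 3⁻¹) * (X ^ (2 * n) * ellP p)).coeff (2 * n)
  set r4 := (U p - C (ga p n * 3⁻¹) * (X ^ (2 * n) * ellP p)).coeff (2 * n + p)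
  have hl1 : ell p 1 = 0 := by
    unfold ell
    have := H_pred (p := p) h2
    unfold H at this
    rw [← this]
    refine sum_congr rfl fun i _ => ?_
    rw [one_pow, one_mul]
  have hl4 : 4 * ell p 4⁻¹ = -ell p 4 := by
    rw [ell_inv h2 h4]
    field_simp
  have hrel := ell_rel (p := p) h2
  have hneg := ell_neg_one (p := p) h2
  rw [h1] at hneg
  have hH := H_rel hn
  have hbe := be_eq1 hn
  have hQ : (-2 : ZMod p) ^ (2 * n) = 4 ^ n := by
    rw [Even.neg_pow (even_two_mul n), pow_mul, show (2 ^ 2 : ZMod p) = 4 by norm_num]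
  have h64 : (4 : ZMod p) ^ n * 4 ^ n * 4 ^ n = 1 := by
    rw [← pow_add, ← pow_add, show (4 : ZMod p) = 2 ^ 2 by norm_num, ← pow_mul,
      show 2 * (n + n + n) = p - 1 by omega]
    exact ZMod.pow_card_sub_one_eq_one h2'
  have hq : (4⁻¹ : ZMod p) ^ (2 * n) = 4 ^ n := by
    rw [inv_pow]
    exact inv_eq_of_mul_eq_one_right (by rw [two_mul, pow_add]; exact h64)
  rw [hQ] at e2
  rw [hq] at e3
  rw [hl1, one_pow] at e1
  set Q := (4 : ZMod p) ^ n
  have hQ2 : (4 : ZMod p) ^ (2 * n) = Q * Q := by rw [two_mul, pow_add]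
  rw [hQ2] at hbe
  set γ := ga p n
  set β := be p
  set l2 := ell p (-2)
  set l4 := ell p 4
  have h3i : (3 : ZMod p) * 3⁻¹ = 1 := mul_inv_cancel₀ h3
  have h4i : (4 : ZMod p) * 4⁻¹ = 1 := mul_inv_cancel₀ h4
  -- `9 f(1) = γ (3 (H_{2n} - H_n) + ℓ(-2) + ℓ(4))`
  have E1 : (f p).eval 1 = r1 + r4 := by linear_combination e1
  have E2 : 3 * β - γ * Q * l2 = 3 * Q * (r1 - 2 * r4) := by
    linear_combination 3 * e2 + γ * Q * l2 * h3i
  have E3 : 3 * (4 * β) + γ * Q * l4 = 3 * Q * (4 * r1 + r4) := by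
    linear_combination 12 * e3 - 3 * e4 + 4 * γ * Q * ell p 4⁻¹ * h3i + γ * Q * hl4 + 3 * Q * r4 * h4i
  have hQne : Q ≠ 0 := pow_ne_zero _ h4
  have h9 : (9 : ZMod p) ≠ 0 := by
    rw [show (9 : ZMod p) = 3 ^ 2 by norm_num]
    exact pow_ne_zero 2 h3
  have E4 : 9 * Q * (f p).eval 1 = 9 * β + γ * Q * (l2 + l4) := by
    rw [E1]
    linear_combination -E3 + E2
  have E5 : 9 * (f p).eval 1 = 0 := by
    apply mul_left_cancel₀ hQne
    linear_combination E4 + γ * Q * hrel + 3 * γ * Q * hneg - 9 * β * h64 + 3 * Q * hbe + 3 * Q * γ * hH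
  exact (mul_eq_zero.1 E5).resolve_left h9

end one

end Pool.Agent.Q33.Cub
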