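import Mathlib

/-! The sum `∑_{n<p} a(n)` in terms of `C(2j,j)/(3j+1)`, and elementary facts modulo `p`. -/

namespace Pool.Agent.Q33.Cub

open Finset

/-- the sequence `a(n)` -/
def a (n : ℕ) : ℤ :=
  ∑ j ∈ range (n + 1), (n.choose j : ℤ) * ((n - j).choose j : ℤ) * ((n + j).choose j : ℤ)

/-- `T_j = C(2j,j) C(3j,j) C(p+j,3j+1)` -/
def T (p j : ℕ) : ℤ :=
  ((2 * j).choose j : ℤ) * ((3 * j).choose j : ℤ) * ((p + j).choose (3 * j + 1) : ℤ)

theorem term_eq (n j : ℕ) :
    (n.choose j : ℤ) * ((n - j).choose j : ℤ) * ((n + j).choose j : ℤ)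
      = ((2 * j).choose j : ℤ) * ((3 * j).choose j : ℤ) * ((n + j).choose (3 * j) : ℤ) := by
  have h1 : (n + j).choose (3 * j) * (3 * j).choose j = (n + j).choose j * n.choose (2 * j) := by
    rw [Nat.choose_mul (by omega), Nat.add_sub_cancel, show 3 * j - j = 2 * j by omega]
  have h2 : n.choose (2 * j) * (2 * j).choose j = n.choose j * (n - j).choose j := by
    rw [Nat.choose_mul (by omega), show 2 * j - j = j by omega]
  have h1' : ((n + j).choose (3 * j) : ℤ) * ((3 * j).choose j : ℤ)
      = ((n + j).choose j : ℤ) * (n.choose (2 * j) : ℤ) := by exact_mod_cast h1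
  have h2' : (n.choose (2 * j) : ℤ) * ((2 * j).choose j : ℤ)
      = (n.choose j : ℤ) * ((n - j).choose j : ℤ) := by exact_mod_cast h2
  linear_combination (-((2 * j).choose j : ℤ)) * h1' - ((n + j).choose j : ℤ) * h2'

theorem hockey (p j : ℕ) : ∑ n ∈ range p, ((n + j).choose (3 * j) : ℤ) = ((p + j).choose (3 * j + 1) : ℤ) := by
  induction p with
  | zero =>
    rw [range_zero, sum_empty, zero_add, Nat.choose_eq_zero_of_lt (by omega)]
    rfl
  | succ p ih =>
    rw [sum_range_succ, ih, show p + 1 + j = p + j + 1 by ring, Nat.choose_succ_succ]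
    push_cast
    ring

theorem sum_a {p h : ℕ} (hp : 2 * h + 1 = p) :
    ∑ n ∈ range p, a n = ∑ j ∈ range (h + 1), T p j := by
  have h1 : ∀ n ∈ range p, a n = ∑ j ∈ range p,
      ((2 * j).choose j : ℤ) * ((3 * j).choose j : ℤ) * ((n + j).choose (3 * j) : ℤ) := by
    intro n hn
    rw [mem_range] at hn
    unfold a
    rw [sum_congr rfl (fun j _ => term_eq n j)]
    apply sum_subset (range_subset_range.2 (by omega))
    intro j _ hj
    rw [mem_range, not_lt] at hj
    rw [Nat.choose_eq_zero_of_lt (show n + j < 3 * j by omega)]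
    simp
  rw [sum_congr rfl h1, sum_comm]
  have h2 : ∀ j ∈ range p, ∑ n ∈ range p,
      ((2 * j).choose j : ℤ) * ((3 * j).choose j : ℤ) * ((n + j).choose (3 * j) : ℤ) = T p j := by
    intro j _
    rw [← mul_sum, hockey]
    rfl
  rw [sum_congr rfl h2]
  symm
  apply sum_subset (range_subset_range.2 (by omega))
  intro j _ hj
  rw [mem_range, not_lt] at hj
  unfold T
  rw [Nat.choose_eq_zero_of_lt (show p + j < 3 * j + 1 by omega)]
  simp

theorem T_mul {p j : ℕ} (hp : 0 < p) :
    (3 * (j : ℤ) + 1) * T p j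
      = p * (((2 * j).choose j : ℤ) * ((p + j).choose j : ℤ) * ((p - 1).choose (2 * j) : ℤ)) := by
  have h1 : (p + j).choose (3 * j + 1) * (3 * j + 1).choose j = (p + j).choose j * p.choose (2 * j + 1) := by
    rw [Nat.choose_mul (by omega), Nat.add_sub_cancel, show 3 * j + 1 - j = 2 * j + 1 by omega]
  have h2 : (2 * j + 1) * p.choose (2 * j + 1) = p * (p - 1).choose (2 * j) := by
    have := Nat.add_one_mul_choose_eq (p - 1) (2 * j)
    rw [show p - 1 + 1 = p by omega] at this
    linarith
  have h3 : (3 * j).choose j * (3 * j + 1) = (3 * j + 1).choose j * (2 * j + 1) := by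
    have := Nat.choose_mul_succ_eq (3 * j) j
    rw [show 3 * j + 1 - j = 2 * j + 1 by omega] at this
    exact this
  have h1' : ((p + j).choose (3 * j + 1) : ℤ) * ((3 * j + 1).choose j : ℤ)
      = ((p + j).choose j : ℤ) * (p.choose (2 * j + 1) : ℤ) := by exact_mod_cast h1
  have h2' : (2 * (j : ℤ) + 1) * (p.choose (2 * j + 1) : ℤ) = p * ((p - 1).choose (2 * j) : ℤ) := by
    exact_mod_cast h2
  have h3' : ((3 * j).choose j : ℤ) * (3 * (j : ℤ) + 1) = ((3 * j + 1).choose j : ℤ) * (2 * (j : ℤ) + 1) := by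
    exact_mod_cast h3
  unfold T
  linear_combination ((2 * j).choose j : ℤ) * ((p + j).choose (3 * j + 1) : ℤ) * h3'
    + ((2 * j).choose j : ℤ) * (2 * (j : ℤ) + 1) * h1' + ((2 * j).choose j : ℤ) * ((p + j).choose j : ℤ) * h2'

section
variable {p : ℕ} [Fact p.Prime]

theorem choose_add_self {j : ℕ} (hj : j < p) : (((p + j).choose j : ℕ) : ZMod p) = 1 := by
  have h := Choose.choose_modEq_choose_mod_mul_choose_div_nat (n := p + j) (k := j) (p := p)
  have hp : 0 < p := (Fact.out : p.Prime).pos
  rw [Nat.add_mod_left, Nat.mod_eq_of_lt hj, Nat.add_div_left j hp, Nat.div_eq_of_lt hj,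
    Nat.choose_self, Nat.choose_zero_right] at h
  have := (ZMod.natCast_eq_natCast_iff _ _ _).2 h
  rw [this]
  simp

theorem choose_pred {k : ℕ} (hk : k < p) : (((p - 1).choose k : ℕ) : ZMod p) = (-1) ^ k := by
  induction k with
  | zero => simp
  | succ k ih =>
    have hp : p.Prime := Fact.out
    have h1 := ih (by omega)
    have h2 : p.choose (k + 1) = (p - 1).choose k + (p - 1).choose (k + 1) := by
      conv_lhs => rw [show p = p - 1 + 1 by have := hp.pos; omega]
      rw [Nat.choose_succ_succ]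
    have h3 : ((p.choose (k + 1) : ℕ) : ZMod p) = 0 :=
      (ZMod.natCast_eq_zero_iff _ _).2 (hp.dvd_choose_self (by omega) hk)
    rw [h2] at h3
    push_cast at h3
    rw [pow_succ]
    linear_combination h3 - h1

theorem cast_ne {j : ℕ} (h0 : 0 < j) (hj : j < p) : ((j : ℕ) : ZMod p) ≠ 0 := by
  intro h
  rw [ZMod.natCast_eq_zero_iff] at h
  exact absurd (Nat.le_of_dvd h0 h) (by omega)

theorem central {h j : ℕ} (hh : 2 * h + 1 = p) (hj : j < p) :
    (((2 * j).choose j : ℕ) : ZMod p) = (h.choose j : ZMod p) * (-4) ^ j := by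
  induction j with
  | zero => simp
  | succ j ih =>
    have h1 := ih (by omega)
    have h2 := Nat.succ_mul_centralBinom_succ j
    rw [Nat.centralBinom_eq_two_mul_choose, Nat.centralBinom_eq_two_mul_choose] at h2
    have h2' : ((j : ZMod p) + 1) * (((2 * (j + 1)).choose (j + 1) : ℕ) : ZMod p)
        = 2 * (2 * (j : ZMod p) + 1) * (((2 * j).choose j : ℕ) : ZMod p) := by
      exact_mod_cast congrArg (fun n : ℕ => (n : ZMod p)) h2
    have hp2 : (2 * (h : ZMod p) + 1) = 0 := by
      have : ((2 * h + 1 : ℕ) : ZMod p) = 0 := by rw [hh]; exact CharP.cast_eq_zero _ p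
      push_cast at this
      exact this
    have h3 : ((h.choose (j + 1) : ℕ) : ZMod p) * ((j : ZMod p) + 1) = ((h.choose j : ℕ) : ZMod p) * ((h : ZMod p) - j) := by
      rcases Nat.lt_or_ge h j with hlt | hge
      · rw [Nat.choose_eq_zero_of_lt hlt, Nat.choose_eq_zero_of_lt (show h < j + 1 by omega)]
        simp
      · have h4 := Nat.choose_succ_right_eq h j
        have h5 : ((h - j : ℕ) : ZMod p) = (h : ZMod p) - j := by
          rw [Nat.cast_sub hge]
        rw [← h5]
        exact_mod_cast congrArg (fun n : ℕ => (n : ZMod p)) h4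
    have hne : ((j : ZMod p) + 1) ≠ 0 := by
      have := cast_ne (p := p) (Nat.succ_pos j) hj
      push_cast at this
      exact this
    apply mul_left_cancel₀ hne
    rw [h2', h1, pow_succ]
    linear_combination (-(-4) ^ j * (-4)) * h3 + 2 * ((h.choose j : ℕ) : ZMod p) * (-4) ^ j * hp2

end

/-- partial fractions -/
theorem partial_frac {K : Type*} [Field K] (n : ℕ) (x : K) (hx : ∀ j ≤ n, x + j ≠ 0) :
    ∑ j ∈ range (n + 1), ((-1) ^ j * (n.choose j : K)) / (x + j)
      = (n.factorial : K) / ∏ j ∈ range (n + 1), (x + j) := by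
  induction n generalizing x with
  | zero => simp
  | succ n ih =>
    have h1 := ih x (fun j hj => hx j (by omega))
    have h2 := ih (x + 1) (fun j hj => by
      have := hx (j + 1) (by omega)
      push_cast at this
      intro h
      apply this
      rw [← h]
      ring)
    have h3 : ∑ j ∈ range (n + 1 + 1), ((-1) ^ j * ((n + 1).choose j : K)) / (x + j)
        = ∑ j ∈ range (n + 1), ((-1) ^ j * (n.choose j : K)) / (x + j)
          - ∑ j ∈ range (n + 1), ((-1) ^ j * (n.choose j : K)) / (x + 1 + j) := by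
      rw [sum_range_succ' _ (n + 1),
        sum_range_succ' (fun j => ((-1) ^ j * (n.choose j : K)) / (x + j)) n]
      have h4 : ∑ k ∈ range (n + 1), ((-1) ^ (k + 1) * ((n + 1).choose (k + 1) : K)) / (x + ((k + 1 : ℕ) : K))
          = ∑ k ∈ range (n + 1), ((-1) ^ (k + 1) * (n.choose (k + 1) : K)) / (x + ((k + 1 : ℕ) : K))
            - ∑ j ∈ range (n + 1), ((-1) ^ j * (n.choose j : K)) / (x + 1 + j) := by
        rw [← sum_sub_distrib]
        refine sum_congr rfl fun k _ => ?_
        rw [Nat.choose_succ_succ]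
        push_cast
        rw [show x + 1 + (k : K) = x + (k + 1) by ring, pow_succ]
        ring
      rw [h4, sum_range_succ (fun k => ((-1) ^ (k + 1) * (n.choose (k + 1) : K)) / (x + ((k + 1 : ℕ) : K))) n,
        Nat.choose_succ_self]
      simp
      ring
    rw [h3, h1, h2]
    have hP : ∏ j ∈ range (n + 1), (x + j) ≠ 0 := prod_ne_zero_iff.2 fun j hj => hx j (by rw [mem_range] at hj; omega)
    have hQ : ∏ j ∈ range (n + 1), (x + 1 + j) ≠ 0 := prod_ne_zero_iff.2 fun j hj => by
      rw [mem_range] at hj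
      have := hx (j + 1) (by omega)
      push_cast at this
      intro h
      apply this
      rw [← h]
      ring
    have hx0 : x ≠ 0 := by
      have := hx 0 (by omega)
      simpa using this
    have hxn : x + ((n + 1 : ℕ) : K) ≠ 0 := hx (n + 1) le_rfl
    have e1 : ∏ j ∈ range (n + 1 + 1), (x + j) = (∏ j ∈ range (n + 1), (x + j)) * (x + ((n + 1 : ℕ) : K)) :=
      prod_range_succ _ _
    have e2 : ∏ j ∈ range (n + 1 + 1), (x + j) = (∏ j ∈ range (n + 1), (x + 1 + j)) * x := by
      rw [prod_range_succ']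
      congr 1
      · refine prod_congr rfl fun j _ => ?_
        push_cast
        ring
      · simp
    have e3 : (n.factorial : K) / ∏ j ∈ range (n + 1), (x + j)
        = (n.factorial : K) * (x + ((n + 1 : ℕ) : K)) / ∏ j ∈ range (n + 1 + 1), (x + j) := by
      rw [e1]
      field_simp
    have e4 : (n.factorial : K) / ∏ j ∈ range (n + 1), (x + 1 + j)
        = (n.factorial : K) * x / ∏ j ∈ range (n + 1 + 1), (x + j) := by
      rw [e2]
      field_simp
    rw [e3, e4, ← sub_div, Nat.factorial_succ]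
    push_cast
    congr 1
    ring

end Pool.Agent.Q33.Cub
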