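import Pool.Agent.Q33.Cub.Basic
import Pool.Agent.Q33.Cub.Sum

/-! The case `p ≡ 2 (mod 3)`. -/

namespace Pool.Agent.Q33.Cub

open Finset Polynomial

variable {p : ℕ} [Fact p.Prime]

theorem wilson_gen {b : ℕ} (hb : b < p) :
    (((p - 1 - b).factorial : ℕ) : ZMod p) * ((b.factorial : ℕ) : ZMod p) = (-1) ^ (b + 1) := by
  induction b with
  | zero =>
    have := ZMod.wilsons_lemma p
    simp [this]
  | succ b ih =>
    have h1 := ih (by omega)
    have h2 : (p - 1 - b).factorial = (p - 1 - b) * (p - 1 - (b + 1)).factorial := by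
      rw [show p - 1 - b = p - 1 - (b + 1) + 1 by omega, Nat.factorial_succ]
    have h3 : ((p - 1 - b : ℕ) : ZMod p) = -((b : ZMod p) + 1) := by
      have h4 : ((p - 1 - b : ℕ) : ZMod p) + (b + 1) = ((p : ℕ) : ZMod p) := by
        have : p - 1 - b + (b + 1) = p := by omega
        exact_mod_cast congrArg (fun n : ℕ => (n : ZMod p)) this
      have h5 : ((p : ℕ) : ZMod p) = 0 := CharP.cast_eq_zero _ p
      rw [h5] at h4
      linear_combination h4
    rw [h2, Nat.cast_mul, h3] at h1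
    rw [Nat.factorial_succ, pow_succ]
    push_cast
    linear_combination -h1

variable (p) in
/-- `ε = (-27)^(-h)` -/
noncomputable def ep : ZMod p := ((-27) ^ hh p)⁻¹

variable (p) in
/-- the combination killed by `θ` -/
noncomputable def U : (ZMod p)[X] := g p + C (ep p * 3⁻¹) * ((X + 2) ^ p * f p)

theorem natDegree_U (h2 : p ≠ 2) : (U p).natDegree ≤ p + hh p := by
  unfold U
  refine (natDegree_add_le _ _).trans (max_le (natDegree_g h2) ?_)
  exact (natDegree_C_mul_le _ _).trans natDegree_f2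

theorem U_one (h2 : p ≠ 2) (h3 : (3 : ZMod p) ≠ 0) : (U p).eval 1 = ep p * (f p).eval 1 := by
  unfold U
  rw [eval_add, g_one, eval_C_mul, eval_mul, eval_pow, eval_add, eval_X]
  have : (eval 1 (2 : (ZMod p)[X])) = 2 := by
    rw [show (2 : (ZMod p)[X]) = C 2 from rfl, eval_C]
  rw [this, show (1 + 2 : ZMod p) = 3 by norm_num, ZMod.pow_card]
  field_simp
  ring

theorem U_neg_two (h2 : p ≠ 2) (h3 : (3 : ZMod p) ≠ 0) : (U p).eval (-2) = be p := by
  unfold U
  rw [eval_add, g_neg_two h2 h3, eval_C_mul, eval_mul, eval_pow, eval_add, eval_X]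
  have : (eval (-2) (2 : (ZMod p)[X])) = 2 := by
    rw [show (2 : (ZMod p)[X]) = C 2 from rfl, eval_C]
  rw [this, neg_add_cancel, ZMod.pow_card]
  ring

theorem U_quarter (h2 : p ≠ 2) (h3 : (3 : ZMod p) ≠ 0) :
    4 * (U p).eval (4⁻¹) = (1 + 3 * ep p) * be p := by
  have h4 : (4 : ZMod p) ≠ 0 := by
    rw [show (4 : ZMod p) = 2 ^ 2 by norm_num]
    exact pow_ne_zero 2 (two_ne h2)
  unfold U
  rw [eval_add, g_quarter h2 h3, eval_C_mul, eval_mul, eval_pow, eval_add, eval_X, f_quarter]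
  have : (eval (4⁻¹) (2 : (ZMod p)[X])) = 2 := by
    rw [show (2 : (ZMod p)[X]) = C 2 from rfl, eval_C]
  rw [this, ZMod.pow_card]
  field_simp
  ring

/-! ### `p = 6n - 1` -/

section two
variable {n : ℕ} (hn : p + 1 = 6 * n)
include hn

theorem n_pos : 1 ≤ n := by omega

theorem p_ne_two : p ≠ 2 := by omega

theorem hh_eq : hh p = 3 * n - 1 := by
  unfold hh
  omega

theorem three_ne : (3 : ZMod p) ≠ 0 := by
  intro h
  have h' : ((3 : ℕ) : ZMod p) = 0 := by exact_mod_cast h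
  rw [ZMod.natCast_eq_zero_iff] at h'
  have hp : p.Prime := Fact.out
  have := (Nat.prime_dvd_prime_iff_eq hp Nat.prime_three).1 h'
  omega

theorem lin_ne {e : ℕ} (he : e ≤ p + hh p) (h : e ≠ 4 * n - 1) : (3 * (e : ZMod p) + 1) ≠ 0 := by
  intro h0
  have h' : ((3 * e + 1 : ℕ) : ZMod p) = 0 := by
    push_cast
    exact h0
  rw [ZMod.natCast_eq_zero_iff] at h'
  rw [hh_eq hn] at he
  obtain ⟨k, hk⟩ := h'
  have hk5 : k < 5 := by
    by_contra hk5
    push Not at hk5
    have : p * 5 ≤ p * k := Nat.mul_le_mul_left p hk5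
    omega
  interval_cases k <;> omega

theorem six_n : (6 * (n : ZMod p)) = 1 := by
  have h1 : ((p + 1 : ℕ) : ZMod p) = ((6 * n : ℕ) : ZMod p) := by rw [hn]
  push_cast at h1
  rw [CharP.cast_eq_zero] at h1
  linear_combination -h1

theorem ka_eq {j : ℕ} (hj : j ≤ hh p) : ka p j = ((hh p).choose j : ZMod p) * (-4) ^ j := by
  unfold ka ph
  have : (3 * (j : ZMod p) + 1) ≠ 0 := by
    apply lin_ne hn (by omega)
    rw [hh_eq hn] at hj
    omega
  field_simp

theorem th_U : th (U p) = 0 := by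
  have h2 := p_ne_two hn
  have h3 := three_ne hn
  unfold U
  rw [th_add, th_C_mul, th_mul_pow, th_f, th_g h2]
  have e1 : ∑ j ∈ range (hh p + 1), C (ka p j) * X ^ j = (1 - 4 * X : (ZMod p)[X]) ^ hh p := by
    rw [← sum_binom]
    refine sum_congr rfl fun j hj => ?_
    rw [mem_range] at hj
    rw [ka_eq hn (by omega)]
  have e2 : ∑ j ∈ range (hh p + 1), C (ka p j * (27 ^ j)⁻¹) * (X ^ (p - 1 - 2 * j) * (1 - X) ^ (3 * j))
      = C (ep p) * (1 - 4 * X) ^ hh p * (X + 2) ^ (p - 1) := by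
    unfold ep
    rw [← power_id h2 h3]
    refine sum_congr rfl fun j hj => ?_
    rw [mem_range] at hj
    rw [ka_eq hn (by omega)]
  rw [e1, e2, map_mul]
  have e3 : ((X + 2) ^ p : (ZMod p)[X]) = (X + 2) * (X + 2) ^ (p - 1) := by
    rw [← pow_succ']
    congr 1
    have := (Fact.out : p.Prime).pos
    omega
  rw [e3]
  ring

theorem U_eval (x : ZMod p) : (U p).eval x = (U p).coeff (4 * n - 1) * x ^ (4 * n - 1) := by
  have h2 := p_ne_two hn
  rw [eval_eq_sum_range' (Nat.lt_succ_of_le (natDegree_U h2))]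
  apply sum_eq_single
  · intro e he hne
    rw [mem_range] at he
    rw [kernel (th_U hn) e (lin_ne hn (by omega) hne), zero_mul]
  · intro h
    rw [mem_range, hh_eq hn] at h
    omega

theorem be_eq : be p * (3 * (((5 * n - 1).factorial : ℕ) : ZMod p))
    = (((3 * n - 1).factorial : ℕ) : ZMod p) * (((2 * n - 1).factorial : ℕ) : ZMod p) := by
  have h3 := three_ne hn
  have h6 := six_n hn
  have h2 := two_ne (p_ne_two hn)
  have h4 : (4 : ZMod p) ≠ 0 := by
    rw [show (4 : ZMod p) = 2 ^ 2 by norm_num]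
    exact pow_ne_zero 2 h2
  have hx : ∀ j ≤ hh p, ((2 * n : ℕ) : ZMod p) + j ≠ 0 := by
    intro j hj
    rw [hh_eq hn] at hj
    have := cast_ne (p := p) (j := 2 * n + j) (by omega) (by omega)
    push_cast at this ⊢
    exact this
  have h1 := partial_frac (hh p) ((2 * n : ℕ) : ZMod p) hx
  have h5 : be p * 3 = ∑ j ∈ range (hh p + 1), ((-1) ^ j * ((hh p).choose j : ZMod p)) / (((2 * n : ℕ) : ZMod p) + j) := by
    unfold be
    rw [sum_mul]
    refine sum_congr rfl fun j hj => ?_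
    rw [mem_range] at hj
    have hne : (3 * (j : ZMod p) + 1) ≠ 0 := by
      apply lin_ne hn (by omega)
      have := hh_eq hn
      omega
    have hne2 := hx j (by omega)
    unfold ph
    have e1 : (-4 : ZMod p) ^ j * (4⁻¹) ^ j = (-1) ^ j := by
      rw [← mul_pow]
      congr 1
      field_simp
    have e2 : (3 * (j : ZMod p) + 1) = 3 * (((2 * n : ℕ) : ZMod p) + j) := by
      push_cast
      linear_combination -h6
    rw [e2, ← e1]
    field_simp
  rw [h1] at h5
  have h7 : (∏ j ∈ range (hh p + 1), (((2 * n : ℕ) : ZMod p) + j)) * (((2 * n - 1).factorial : ℕ) : ZMod p)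
      = (((5 * n - 1).factorial : ℕ) : ZMod p) := by
    have h8 : (∏ j ∈ range (hh p + 1), (2 * n + j)) * (2 * n - 1).factorial = (5 * n - 1).factorial := by
      rw [← Nat.ascFactorial_eq_prod_range, mul_comm]
      have := Nat.factorial_mul_ascFactorial (2 * n - 1) (hh p + 1)
      have hn1 := n_pos hn
      rw [show 2 * n - 1 + 1 = 2 * n by omega, hh_eq hn, show 2 * n - 1 + (3 * n - 1 + 1) = 5 * n - 1 by omega] at this
      rw [hh_eq hn]
      exact this
    exact_mod_cast congrArg (fun n : ℕ => (n : ZMod p)) h8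
  have hP : ∏ j ∈ range (hh p + 1), (((2 * n : ℕ) : ZMod p) + j) ≠ 0 :=
    prod_ne_zero_iff.2 fun j hj => hx j (by rw [mem_range] at hj; omega)
  rw [← h7, ← hh_eq hn]
  rw [eq_div_iff hP] at h5
  linear_combination (((2 * n - 1).factorial : ℕ) : ZMod p) * h5

theorem be_ne : be p ≠ 0 := by
  intro h
  have h1 := be_eq hn
  rw [h, zero_mul] at h1
  have hf : ∀ k, k < p → ((k.factorial : ℕ) : ZMod p) ≠ 0 := by
    intro k hk h0
    rw [ZMod.natCast_eq_zero_iff, (Fact.out : p.Prime).dvd_factorial] at h0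
    omega
  exact mul_ne_zero (hf _ (by omega)) (hf _ (by omega)) h1.symm

theorem pow_pp : (2 : ZMod p) ^ (6 * n) = 4 := by
  have h2 := two_ne (p_ne_two hn)
  have := ZMod.pow_card_sub_one_eq_one h2
  rw [show 6 * n = p - 1 + 2 by omega, pow_add, this]
  norm_num

theorem ep_eq : ep p = -1 := by
  have h2 := p_ne_two hn
  have h3 := three_ne hn
  have h2' := two_ne h2
  have h4 : (4 : ZMod p) ≠ 0 := by
    rw [show (4 : ZMod p) = 2 ^ 2 by norm_num]
    exact pow_ne_zero 2 h2'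
  have e1 := U_neg_two h2 h3
  have e2 := U_quarter h2 h3
  rw [U_eval hn] at e1 e2
  have hn1 := n_pos hn
  have hodd : (-2 : ZMod p) ^ (4 * n - 1) = -(2 ^ (4 * n - 1)) :=
    Odd.neg_pow (by rw [Nat.odd_iff]; omega) 2
  rw [hodd] at e1
  set r := (U p).coeff (4 * n - 1)
  have hpw : (2 : ZMod p) ^ (4 * n - 1) * 2 ^ (4 * n - 1) * 2 ^ (4 * n - 1) = 2 := by
    rw [← pow_add, ← pow_add]
    have h5 := pow_pp hn
    have h6 : (2 : ZMod p) ^ (6 * n) * 2 ^ (6 * n) = 16 := by rw [h5]; norm_num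
    rw [← pow_add, show 6 * n + 6 * n = (4 * n - 1 + (4 * n - 1) + (4 * n - 1)) + 3 by omega, pow_add] at h6
    have h8 : (8 : ZMod p) ≠ 0 := by
      rw [show (8 : ZMod p) = 2 ^ 3 by norm_num]
      exact pow_ne_zero 3 h2'
    apply mul_right_cancel₀ h8
    norm_num at h6 ⊢
    exact h6
  have h4p : (4⁻¹ : ZMod p) ^ (4 * n - 1) * (2 ^ (4 * n - 1) * 2 ^ (4 * n - 1)) = 1 := by
    rw [← mul_pow, ← mul_pow, show (4⁻¹ * (2 * 2) : ZMod p) = 1 by field_simp; norm_num, one_pow]
  have hbe := be_ne hn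
  have t0 : (2 : ZMod p) ^ (4 * n - 1) = 2 * (4⁻¹ : ZMod p) ^ (4 * n - 1) := by
    linear_combination (-(2 : ZMod p) ^ (4 * n - 1)) * h4p + (4⁻¹ : ZMod p) ^ (4 * n - 1) * hpw
  have key : (3 * (ep p + 1)) * be p = 0 := by
    have t1 : (1 + 3 * ep p) * be p = -2 * be p := by
      rw [← e2, ← e1]
      linear_combination (-2 * r) * t0
    linear_combination t1
  rcases mul_eq_zero.1 key with h | h
  · rcases mul_eq_zero.1 h with h' | h'
    · exact absurd h' h3
    · linear_combination h'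
  · exact absurd h hbe

theorem f_one_mul : (f p).eval 1 * (((2 * (2 * n)).choose (2 * n) : ℕ) : ZMod p) = 2 := by
  have h2 := p_ne_two hn
  have h3 := three_ne hn
  have h2' := two_ne h2
  have hn1 := n_pos hn
  have e1 := U_neg_two h2 h3
  have e0 := U_one h2 h3
  rw [U_eval hn] at e1 e0
  rw [ep_eq hn, one_pow] at e0
  have hodd : (-2 : ZMod p) ^ (4 * n - 1) = -(2 ^ (4 * n - 1)) :=
    Odd.neg_pow (by rw [Nat.odd_iff]; omega) 2
  rw [hodd] at e1
  set r := (U p).coeff (4 * n - 1)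
  set P := (2 : ZMod p) ^ (4 * n - 1) with hP
  have hfP : (f p).eval 1 * P = be p := by
    linear_combination e1 + P * e0
  have hb := be_eq hn
  have w1 := wilson_gen (p := p) (b := n - 1) (by omega)
  rw [show p - 1 - (n - 1) = 5 * n - 1 by omega, show n - 1 + 1 = n by omega] at w1
  have w2 := wilson_gen (p := p) (b := 3 * n - 1) (by omega)
  rw [show p - 1 - (3 * n - 1) = 3 * n - 1 by omega, show 3 * n - 1 + 1 = 3 * n by omega] at w2
  have hc := central (p := p) (h := 3 * n - 1) (j := 2 * n) (by omega) (by omega)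
  have hch : (((3 * n - 1).choose (2 * n) : ℕ) : ZMod p) * (((2 * n).factorial : ℕ) : ZMod p)
      * (((n - 1).factorial : ℕ) : ZMod p) = (((3 * n - 1).factorial : ℕ) : ZMod p) := by
    have := Nat.choose_mul_factorial_mul_factorial (show 2 * n ≤ 3 * n - 1 by omega)
    rw [show 3 * n - 1 - 2 * n = n - 1 by omega] at this
    exact_mod_cast congrArg (fun n : ℕ => (n : ZMod p)) this
  have hfac : (((2 * n).factorial : ℕ) : ZMod p) = 2 * n * (((2 * n - 1).factorial : ℕ) : ZMod p) := by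
    have : (2 * n).factorial = 2 * n * (2 * n - 1).factorial := by
      conv_lhs => rw [show 2 * n = 2 * n - 1 + 1 by omega]
      rw [Nat.factorial_succ, show 2 * n - 1 + 1 = 2 * n by omega]
    exact_mod_cast congrArg (fun n : ℕ => (n : ZMod p)) this
  have h6 := six_n hn
  have hf : ∀ k, k < p → ((k.factorial : ℕ) : ZMod p) ≠ 0 := by
    intro k hk h0
    rw [ZMod.natCast_eq_zero_iff, (Fact.out : p.Prime).dvd_factorial] at h0
    omega
  have hPne : P ≠ 0 := pow_ne_zero _ h2'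
  have hP16 : (-4 : ZMod p) ^ (2 * n) = 2 * P := by
    rw [hP, ← pow_succ', show 4 * n - 1 + 1 = 2 * (2 * n) by omega, pow_mul (2 : ZMod p) 2 (2 * n),
      show (2 ^ 2 : ZMod p) = 4 by norm_num]
    exact Even.neg_pow (even_two_mul n) 4
  have hs : ((-1 : ZMod p)) ^ (3 * n) = (-1) ^ n := by
    rw [pow_mul]
    norm_num
  rw [hs] at w2
  set Fc := (((5 * n - 1).factorial : ℕ) : ZMod p) with hFc
  set Fa := (((2 * n).factorial : ℕ) : ZMod p) with hFa
  set Fb := (((n - 1).factorial : ℕ) : ZMod p) with hFb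
  set Fd := (((3 * n - 1).factorial : ℕ) : ZMod p) with hFd
  set Fe := (((2 * n - 1).factorial : ℕ) : ZMod p) with hFe
  set Ch := (((3 * n - 1).choose (2 * n) : ℕ) : ZMod p) with hCh
  rw [hc, hP16]
  have hne : P * (3 * Fc) * (Fa * Fb) ≠ 0 := by
    refine mul_ne_zero (mul_ne_zero hPne (mul_ne_zero h3 (hf _ (by omega)))) (mul_ne_zero (hf _ (by omega)) (hf _ (by omega)))
  apply mul_right_cancel₀ hne
  -- f P = β ; β (3 Fc) = Fd Fe ; Ch Fa Fb = Fd
  have t1 : (f p).eval 1 * (Ch * (2 * P)) * (P * (3 * Fc) * (Fa * Fb)) = 2 * P * (-1) ^ n * Fe := by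
    calc (f p).eval 1 * (Ch * (2 * P)) * (P * (3 * Fc) * (Fa * Fb))
        = 2 * P * (((f p).eval 1 * P) * (3 * Fc)) * (Ch * Fa * Fb) := by ring
      _ = 2 * P * (Fd * Fe) * Fd := by rw [hfP, hb, hch]
      _ = 2 * P * (Fd * Fd) * Fe := by ring
      _ = 2 * P * (-1) ^ n * Fe := by rw [w2]
  have t2 : 2 * (P * (3 * Fc) * (Fa * Fb)) = 2 * P * (-1) ^ n * Fe := by
    calc 2 * (P * (3 * Fc) * (Fa * Fb)) = 2 * P * 3 * (Fc * Fb) * Fa := by ring
      _ = 2 * P * 3 * (-1) ^ n * (2 * n * Fe) := by rw [w1, hfac]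
      _ = 2 * P * (-1) ^ n * (6 * n) * Fe := by ring
      _ = 2 * P * (-1) ^ n * Fe := by rw [h6, mul_one]
  rw [t1, t2]

end two

end Pool.Agent.Q33.Cub
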